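import Mathlib
import Pool.Agent.Y784.KS.Der5

/-!
Every derivation of a von Neumann algebra into `B(H)` is implemented by an operator whose norm is at
most `2640` times the norm of the derivation. No continuity is assumed.
-/

set_option autoImplicit false

noncomputable section

namespace Pool.Agent.Results.MP_22c5db_an.UniversalConstant

/-- For every Hilbert space `H`, every von Neumann algebra `R` acting on `H` and every derivation `δ` of
`R` into `B(H)` (only the values `δ a` with `a ∈ R` matter; `δ` is additive and homogeneous on `R`,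
with `δ (a b) = a δ(b) + δ(a) b`, no continuity assumed) there is `T ∈ B(H)` with
`δ a = T a - a T` for all `a ∈ R`, and `‖T‖ ≤ 2640 M` whenever `‖δ a‖ ≤ M ‖a‖` for all
`a ∈ R`. -/
theorem result (H : Type) [NormedAddCommGroup H] [InnerProductSpace ℂ H] [CompleteSpace H]
    (R : VonNeumannAlgebra H) (δ : (H →L[ℂ] H) → (H →L[ℂ] H))
    (hadd : ∀ a ∈ R, ∀ b ∈ R, δ (a + b) = δ a + δ b)
    (hsmul : ∀ z : ℂ, ∀ a ∈ R, δ (z • a) = z • δ a)
    (hmul : ∀ a ∈ R, ∀ b ∈ R, δ (a * b) = a * δ b + δ a * b) :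
    ∃ T : H →L[ℂ] H, (∀ a ∈ R, δ a = T * a - a * T) ∧
      ∀ M : ℝ, 0 ≤ M → (∀ a ∈ R, ‖δ a‖ ≤ M * ‖a‖) → ‖T‖ ≤ 2640 * M :=
  Pool.Agent.Y784.KS.der_vn_all H R δ hadd hsmul hmul

end Pool.Agent.Results.MP_22c5db_an.UniversalConstant
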